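import Pool.Agent.BSE.Stmts
import Pool.Agent.Helper64_FR.FIX

/-!
# Module EIG of the Bose sector theorem
-/

open MeasureTheory Matrix Finset
open scoped ComplexConjugate

namespace Pool.Agent.BSE.H69

open Pool.Agent.Helper64_FR Pool.Agent.BSE

variable {n : ℕ}

/-- a continuous function on the compact group is integrable -/
theorem integrable_cont (B : Finset (Fin n)) {f : UB B → ℂ} (hf : Continuous f) :
    Integrable f (haarB B) := by
  have : IsFiniteMeasure (haarB B) := inferInstance
  exact (BoundedContinuousFunction.mkOfCompact ⟨f, hf⟩).integrable _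

theorem cont_entry (B : Finset (Fin n)) (i j : Fin n) :
    Continuous fun A : UB B => ((A : UU n) : Matrix (Fin n) (Fin n) ℂ) i j := by
  have h1 : Continuous fun A : UB B => (A : UU n) := continuous_subtype_val
  have h2 : Continuous fun A : UU n => (A : Matrix (Fin n) (Fin n) ℂ) := continuous_subtype_val
  exact (continuous_apply_apply i j).comp (h2.comp h1)

theorem cont_val (B : Finset (Fin n)) :
    Continuous fun A : UB B => ((A : UU n) : Matrix (Fin n) (Fin n) ℂ) :=
  continuous_pi fun i => continuous_pi fun j => cont_entry B i j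

theorem cont_inv (B : Finset (Fin n)) :
    Continuous fun A : UB B => (((A : UU n)⁻¹ : UU n) : Matrix (Fin n) (Fin n) ℂ) := by
  have : (fun A : UB B => (((A : UU n)⁻¹ : UU n) : Matrix (Fin n) (Fin n) ℂ)) =
      fun A : UB B => star ((A : UU n) : Matrix (Fin n) (Fin n) ℂ) := rfl
  rw [this]
  exact (cont_val B).star

theorem cont_bil (u v : Fin n → ℂ) : Continuous (bil u v) := by
  unfold bil
  refine continuous_finset_sum _ fun i _ => continuous_finset_sum _ fun j _ => ?_
  exact (continuous_const.mul (continuous_apply_apply i j)).mul continuous_const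

theorem cont_TB (B : Finset (Fin n)) (c : Fin n → ℝ) :
    Continuous fun A : UB B => TB B (A : UU n) c := by
  refine continuous_pi fun i => ?_
  unfold TB
  by_cases h : i ∈ B
  · simp only [h, dif_pos]
    refine continuous_finset_sum _ fun j _ => ?_
    exact (((cont_entry B j _).norm).pow 2).mul continuous_const
  · simp only [h, dif_neg, not_false_eq_true]
    exact continuous_const

theorem cont_dg : Continuous (dg : (Fin n → ℝ) → Matrix (Fin n) (Fin n) ℂ) := by
  unfold dg
  refine Continuous.matrix_diagonal ?_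
  exact continuous_pi fun i => Complex.continuous_ofReal.comp (continuous_apply i)

/-- the average of a representation, seen through a linear functional -/
theorem func_avg (ρ : URep n) (B : Finset (Fin n)) (ℓ : (Fin ρ.dim → ℂ) →ₗ[ℂ] ℂ)
    (v : Fin ρ.dim → ℂ) :
    ℓ (ρ.avg B *ᵥ v) = ∫ A : UB B, ℓ (ρ.mat (A : UU n) *ᵥ v) ∂(haarB B) := by
  have h1 : ∀ x : Fin ρ.dim → ℂ, ℓ x = ∑ a, x a * ℓ (Pi.single a 1) := by
    intro x
    conv_lhs => rw [← Finset.univ_sum_single x, map_sum]
    refine Finset.sum_congr rfl fun a _ => ?_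
    have : (Pi.single a (x a) : Fin ρ.dim → ℂ) = x a • Pi.single a 1 := by
      rw [← Pi.single_smul, smul_eq_mul, mul_one]
    rw [this, map_smul, smul_eq_mul]
  rw [h1]
  have h2 : ∀ A : UB B, ℓ (ρ.mat (A : UU n) *ᵥ v)
      = ∑ a, ∑ b, ρ.mat (A : UU n) a b * (v b * ℓ (Pi.single a 1)) := by
    intro A
    rw [h1]
    refine Finset.sum_congr rfl fun a _ => ?_
    rw [Matrix.mulVec, dotProduct, Finset.sum_mul]
    exact Finset.sum_congr rfl fun b _ => by ring
  simp only [h2]
  rw [integral_finset_sum]
  · refine Finset.sum_congr rfl fun a _ => ?_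
    rw [integral_finset_sum]
    · rw [Matrix.mulVec, dotProduct, Finset.sum_mul]
      refine Finset.sum_congr rfl fun b _ => ?_
      rw [integral_mul_const]
      show (∫ A : UB B, ρ.mat (A : UU n) a b ∂(haarB B)) * v b * _ = _
      ring
    · intro b _
      exact (FIX.integrable_mat ρ B a b).mul_const _
  · intro a _
    refine integrable_finset_sum _ fun b _ => ?_
    exact (FIX.integrable_mat ρ B a b).mul_const _

theorem eig (sch : SCHStmt) (spn : SPNStmt) : EIGStmt := by
  intro n k ρ p q hpq T hT w x v hv c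
  have hav : ∀ B : Finset (Fin n), T (ρ.avg B *ᵥ v) (dg c)
      = ∫ A : UB B, T v (dg (TB B (A : UU n) c)) ∂(haarB B) := by
    intro B
    obtain ⟨N, a, u, v', h0, hs⟩ := spn n k ρ p q hpq T hT v
    have h1 := func_avg ρ B ((LinearMap.proj (dg c)).comp T) v
    simp only [LinearMap.comp_apply, LinearMap.proj_apply] at h1
    rw [h1]
    simp only [hT.equiv, hs]
    rw [integral_finset_sum, integral_finset_sum]
    · refine Finset.sum_congr rfl fun t _ => ?_
      rw [integral_const_mul, integral_const_mul, sch]
    · intro t _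
      refine (integrable_cont B ?_).const_mul _
      exact ((cont_bil _ _).comp (cont_dg.comp (cont_TB B c))).pow k
    · intro t _
      refine (integrable_cont B ?_).const_mul _
      exact ((cont_bil _ _).comp (((cont_inv B).mul continuous_const).mul (cont_val B))).pow k
  have hl : ρ.lap w *ᵥ v = ∑ B : Finset (Fin n), (w B : ℂ) • (v - ρ.avg B *ᵥ v) := by
    unfold URep.lap
    rw [Matrix.sum_mulVec]
    refine Finset.sum_congr rfl fun B _ => ?_
    rw [Matrix.smul_mulVec, Matrix.sub_mulVec, Matrix.one_mulVec]
  have h2 : T (ρ.lap w *ᵥ v) (dg c) = T ((x : ℂ) • v) (dg c) := by rw [hv]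
  rw [hl, map_sum, map_smul, Pi.smul_apply, smul_eq_mul, Finset.sum_apply] at h2
  rw [← h2]
  refine Finset.sum_congr rfl fun B _ => ?_
  rw [map_smul, Pi.smul_apply, smul_eq_mul, map_sub, Pi.sub_apply, hav]

end Pool.Agent.BSE.H69
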