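import Pool.Agent.BSE.Stmts
import Pool.Agent.Helper64_FR.Basic

/-!
# Module NDG of the Bose sector theorem
-/

open MeasureTheory Matrix Finset
open scoped ComplexConjugate

namespace Pool.Agent.BSE.H69

open Pool.Agent.Helper64_FR Pool.Agent.BSE

variable {n : ℕ}

/-- a sum of powers of linear forms that vanishes at the real points: the coefficients vanish -/
theorem words_zero {N : ℕ} (x : Fin N → Fin n → ℂ) : ∀ (k : ℕ) (a : Fin N → ℂ),
    (∀ c : Fin n → ℝ, ∑ t, a t * (∑ i, x t i * (c i : ℂ)) ^ k = 0) →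
    ∀ I : Fin k → Fin n, ∑ t, a t * ∏ s, x t (I s) = 0 := by
  intro k
  induction k with
  | zero =>
    intro a h I
    have := h 0
    simpa using this
  | succ k ih =>
    intro a h I
    have h2 := ih (fun t => a t * x t (I 0)) ?_ (fun s => I s.succ)
    · rw [← h2]
      refine Finset.sum_congr rfl fun t _ => ?_
      rw [Fin.prod_univ_succ]
      ring
    intro c
    have hd : HasDerivAt (fun r : ℝ => ∑ t, a t *
        (∑ i, x t i * ((c i : ℝ) : ℂ) + (r : ℂ) * x t (I 0)) ^ (k + 1))
        (∑ t, a t * (((k + 1 : ℕ) : ℂ) *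
          (∑ i, x t i * ((c i : ℝ) : ℂ) + ((0 : ℝ) : ℂ) * x t (I 0)) ^ k * (1 * x t (I 0)))) 0 := by
      refine HasDerivAt.fun_sum fun t _ => ?_
      refine HasDerivAt.const_mul _ ?_
      have h3 : HasDerivAt (fun r : ℝ => ∑ i, x t i * ((c i : ℝ) : ℂ) + (r : ℂ) * x t (I 0))
          (1 * x t (I 0)) 0 :=
        ((Complex.ofRealCLM.hasDerivAt (x := (0 : ℝ))).mul_const (x t (I 0))).const_add _
      exact h3.pow (k + 1)
    have hz : (fun r : ℝ => ∑ t, a t *
        (∑ i, x t i * ((c i : ℝ) : ℂ) + (r : ℂ) * x t (I 0)) ^ (k + 1)) = fun _ => 0 := by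
      funext r
      have := h (fun i => c i + if i = I 0 then r else 0)
      rw [← this]
      refine Finset.sum_congr rfl fun t _ => ?_
      congr 2
      have e : ∀ i, x t i * (((c i + if i = I 0 then r else 0 : ℝ)) : ℂ)
          = x t i * (c i : ℂ) + if i = I 0 then x t i * (r : ℂ) else 0 := by
        intro i
        split_ifs
        · push_cast
          ring
        · simp
      simp only [e]
      rw [Finset.sum_add_distrib, Finset.sum_ite_eq' Finset.univ (I 0)]
      simp [mul_comm]
    rw [hz] at hd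
    have h4 := hd.unique (hasDerivAt_const (0 : ℝ) (0 : ℂ))
    have h5 : ((k + 1 : ℕ) : ℂ) * ∑ t, a t * x t (I 0) * (∑ i, x t i * ((c i : ℝ) : ℂ)) ^ k = 0 := by
      rw [← h4, Finset.mul_sum]
      refine Finset.sum_congr rfl fun t _ => ?_
      simp only [Complex.ofReal_zero, zero_mul, add_zero, one_mul]
      ring
    rcases mul_eq_zero.1 h5 with h6 | h6
    · exact absurd h6 (Nat.cast_ne_zero.2 (Nat.succ_ne_zero k))
    · exact h6

/-- the multiplicity of a letter in a word -/
def mu {k : ℕ} (I : Fin k → Fin n) (i : Fin n) : ℕ := (Finset.univ.filter fun s => I s = i).card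

theorem prod_word {k : ℕ} (I : Fin k → Fin n) (g : Fin n → ℂ) :
    ∏ s, g (I s) = ∏ i, g i ^ mu I i := by
  rw [← Finset.prod_fiberwise' Finset.univ I g]
  refine Finset.prod_congr rfl fun i _ => ?_
  rw [Finset.prod_const, mu]

theorem mu_le {k : ℕ} (I : Fin k → Fin n) (i : Fin n) : mu I i ≤ k := by
  refine (Finset.card_filter_le _ _).trans ?_
  simp

/-- the average over the roots of unity -/
theorem avg_words {k L : ℕ} (hL : k < L) (z : ℂ) (hz : IsPrimitiveRoot z L)
    (I J : Fin k → Fin n) (hIJ : mu I ≠ mu J) :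
    ∑ e : Fin n → Fin L, ∏ s, (conj (z ^ (e (I s) : ℕ)) * z ^ (e (J s) : ℕ)) = 0 := by
  have hL0 : L ≠ 0 := by omega
  have hz1 : conj z * z = 1 := by
    rw [mul_comm, Complex.mul_conj, Complex.normSq_eq_norm_sq, hz.norm'_eq_one hL0]
    simp
  have e1 : ∀ e : Fin n → Fin L, ∏ s, (conj (z ^ (e (I s) : ℕ)) * z ^ (e (J s) : ℕ))
      = ∏ i, (conj z ^ mu I i * z ^ mu J i) ^ (e i : ℕ) := by
    intro e
    rw [Finset.prod_mul_distrib, prod_word I (fun i => conj (z ^ (e i : ℕ))),
      prod_word J (fun i => z ^ (e i : ℕ)), ← Finset.prod_mul_distrib]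
    refine Finset.prod_congr rfl fun i _ => ?_
    rw [map_pow, mul_pow, ← pow_mul, ← pow_mul, ← pow_mul, ← pow_mul, mul_comm (e i : ℕ),
      mul_comm (e i : ℕ)]
  simp only [e1]
  rw [← Fintype.prod_sum (fun (i : Fin n) (r : Fin L) =>
    (conj z ^ mu I i * z ^ mu J i) ^ (r : ℕ))]
  obtain ⟨i, hi⟩ := Function.ne_iff.1 hIJ
  refine Finset.prod_eq_zero (Finset.mem_univ i) ?_
  set g := conj z ^ mu I i * z ^ mu J i with hg
  have hg1 : g ≠ 1 := by
    intro h
    have h2 : z ^ mu J i = z ^ mu I i := by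
      calc z ^ mu J i = (conj z * z) ^ mu I i * z ^ mu J i := by rw [hz1, one_pow, one_mul]
        _ = z ^ mu I i * g := by rw [hg, mul_pow]; ring
        _ = z ^ mu I i := by rw [h, mul_one]
    exact hi (hz.pow_inj ((mu_le J i).trans_lt hL) ((mu_le I i).trans_lt hL) h2).symm
  have hgL : g ^ L = 1 := by
    rw [hg, mul_pow, ← pow_mul, ← pow_mul, mul_comm (mu I i), mul_comm (mu J i), pow_mul, pow_mul,
      ← map_pow, hz.pow_eq_one, map_one, one_pow, one_pow, one_mul]
  rw [Fin.sum_univ_eq_sum_range (fun r => g ^ r) L]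
  have h3 := geom_sum_mul g L
  rw [hgL, sub_self] at h3
  exact (mul_eq_zero.1 h3).resolve_right (sub_ne_zero.2 hg1)

/-- the diagonal unitary matrix -/
noncomputable def DD (d : Fin n → ℂ) (hd : ∀ i, ‖d i‖ = 1) : UU n :=
  ⟨Matrix.diagonal d, by
    rw [Matrix.mem_unitaryGroup_iff, Matrix.star_eq_conjTranspose, Matrix.diagonal_conjTranspose,
      Matrix.diagonal_mul_diagonal]
    rw [← Matrix.diagonal_one]
    congr 1
    funext i
    rw [Pi.star_apply, Complex.star_def, Complex.mul_conj, Complex.normSq_eq_norm_sq, hd]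
    simp⟩

theorem DD_val (d : Fin n → ℂ) (hd : ∀ i, ‖d i‖ = 1) :
    ((DD d hd : UU n) : Matrix (Fin n) (Fin n) ℂ) = Matrix.diagonal d := rfl

theorem DD_inv_val (d : Fin n → ℂ) (hd : ∀ i, ‖d i‖ = 1) :
    (((DD d hd)⁻¹ : UU n) : Matrix (Fin n) (Fin n) ℂ) = Matrix.diagonal (fun i => conj (d i)) := by
  show star (Matrix.diagonal d) = _
  rw [Matrix.star_eq_conjTranspose, Matrix.diagonal_conjTranspose]
  rfl

/-- a vector fixed by the one-dimensional subgroups is fixed by the diagonal matrices -/
theorem fix_DD (ρ : URep n) (v : Fin ρ.dim → ℂ)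
    (hfix : ∀ (i : Fin n), ∀ h ∈ UB ({i} : Finset (Fin n)), ρ.mat h *ᵥ v = v) :
    ∀ (S : Finset (Fin n)) (d : Fin n → ℂ) (hd : ∀ i, ‖d i‖ = 1), (∀ i, i ∉ S → d i = 1) →
      ρ.mat (DD d hd) *ᵥ v = v := by
  intro S
  induction S using Finset.induction_on with
  | empty =>
    intro d hd h
    have : DD d hd = 1 := by
      apply Subtype.ext
      rw [DD_val]
      have : d = fun _ => 1 := funext fun i => h i (Finset.notMem_empty i)
      rw [this, Matrix.diagonal_one]
      rfl
    rw [this, URep.mat_one, Matrix.one_mulVec]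
  | insert i S hi ih =>
    intro d hd h
    have hd1 : ∀ j, ‖Function.update d i 1 j‖ = 1 := by
      intro j
      by_cases hj : j = i
      · subst hj
        simp
      · rw [Function.update_of_ne hj]
        exact hd j
    have hd2 : ∀ j, ‖Function.update (fun _ => (1 : ℂ)) i (d i) j‖ = 1 := by
      intro j
      by_cases hj : j = i
      · subst hj
        simpa using hd j
      · rw [Function.update_of_ne hj]
        simp
    have hprod : DD d hd = DD _ hd1 * DD _ hd2 := by
      apply Subtype.ext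
      show Matrix.diagonal d = Matrix.diagonal _ * Matrix.diagonal _
      rw [Matrix.diagonal_mul_diagonal]
      congr 1
      funext j
      by_cases hj : j = i
      · subst hj
        simp
      · rw [Function.update_of_ne hj, Function.update_of_ne hj, mul_one]
    rw [hprod, URep.mat_mul, ← Matrix.mulVec_mulVec, hfix i _ ?_, ih _ hd1 ?_]
    · intro j hj
      by_cases hji : j = i
      · subst hji
        simp
      · rw [Function.update_of_ne hji]
        exact h j (by simp [hji, hj])
    · intro a b hab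
      rw [DD_val, Matrix.diagonal_apply]
      by_cases h1 : a = b
      · subst h1
        have : a ≠ i := by
          rintro rfl
          simp at hab
        rw [if_pos rfl, if_pos rfl, Function.update_of_ne this]
      · rw [if_neg h1, if_neg h1]

theorem ndg (spn : SPNStmt) : NDGStmt := by
  intro n k ρ p q hpq T hT v hfix hdiag
  obtain ⟨N, a, u, v', h0, hs⟩ := spn n k ρ p q hpq T hT v
  have h1 : ∀ I : Fin k → Fin n, ∑ t, a t * ∏ s, (conj (v' t (I s)) * u t (I s)) = 0 := by
    refine words_zero (fun t i => conj (v' t i) * u t i) k a fun c => ?_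
    rw [← hdiag c, hs]
    refine Finset.sum_congr rfl fun t _ => ?_
    congr 2
    unfold bil dg
    refine Finset.sum_congr rfl fun i _ => ?_
    rw [Finset.sum_eq_single i]
    · rw [Matrix.diagonal_apply_eq]
      ring
    · intro j _ hj
      rw [Matrix.diagonal_apply_ne _ hj.symm]
      simp
    · simp
  set z : ℂ := Complex.exp (2 * Real.pi * Complex.I / ((k + 1 : ℕ) : ℂ)) with hzdef
  have hz : IsPrimitiveRoot z (k + 1) := Complex.isPrimitiveRoot_exp (k + 1) (Nat.succ_ne_zero k)
  have hzn : ‖z‖ = 1 := hz.norm'_eq_one (Nat.succ_ne_zero k)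
  have hzp : ∀ (e : Fin n → Fin (k + 1)) (i : Fin n), ‖z ^ (e i : ℕ)‖ = 1 := by
    intro e i
    rw [norm_pow, hzn, one_pow]
  have hinv : ∀ (e : Fin n → Fin (k + 1)) (M : Matrix (Fin n) (Fin n) ℂ),
      T v M = ∑ t, a t * (∑ ij : Fin n × Fin n, conj (v' t ij.1) * conj (z ^ (e ij.1 : ℕ)) *
        M ij.1 ij.2 * z ^ (e ij.2 : ℕ) * u t ij.2) ^ k := by
    intro e M
    have h2 := hT.equiv (DD _ (hzp e)) v M
    rw [fix_DD ρ v hfix Finset.univ _ (hzp e) (fun i hi => absurd (Finset.mem_univ i) hi)] at h2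
    rw [h2, hs, DD_val, DD_inv_val]
    refine Finset.sum_congr rfl fun t _ => ?_
    congr 2
    unfold bil
    rw [Fintype.sum_prod_type]
    refine Finset.sum_congr rfl fun i _ => Finset.sum_congr rfl fun j _ => ?_
    rw [Matrix.mul_diagonal, Matrix.diagonal_mul]
    ring
  have key : ∀ M, T v M = 0 := by
    intro M
    have h3 : ∑ e : Fin n → Fin (k + 1), T v M = 0 := by
      have e1 : ∀ e : Fin n → Fin (k + 1), T v M = ∑ w : Fin k → Fin n × Fin n,
          (∏ s, M (w s).1 (w s).2) *
          ((∏ s, (conj (z ^ (e (w s).1 : ℕ)) * z ^ (e (w s).2 : ℕ))) *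
          ∑ t, a t * ((∏ s, conj (v' t (w s).1)) * ∏ s, u t (w s).2)) := by
        intro e
        rw [hinv e M]
        simp only [Fintype.sum_pow, Finset.mul_sum]
        rw [Finset.sum_comm]
        refine Finset.sum_congr rfl fun w _ => Finset.sum_congr rfl fun t _ => ?_
        simp only [Finset.prod_mul_distrib]
        ring
      rw [Finset.sum_congr rfl fun e _ => e1 e, Finset.sum_comm]
      refine Finset.sum_eq_zero fun w _ => ?_
      rw [← Finset.mul_sum, ← Finset.sum_mul]
      by_cases hw : mu (fun s => (w s).1) = mu (fun s => (w s).2)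
      · have h4 : ∑ t, a t * ((∏ s, conj (v' t (w s).1)) * ∏ s, u t (w s).2) = 0 := by
          rw [← h1 (fun s => (w s).1)]
          refine Finset.sum_congr rfl fun t _ => ?_
          rw [Finset.prod_mul_distrib, prod_word (fun s => (w s).2) (fun i => u t i), ← hw,
            ← prod_word (fun s => (w s).1) (fun i => u t i)]
        rw [h4, mul_zero, mul_zero]
      · rw [avg_words (Nat.lt_succ_self k) z hz (fun s => (w s).1) (fun s => (w s).2) hw, zero_mul,
          mul_zero]
    rw [Finset.sum_const, nsmul_eq_mul] at h3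
    refine (mul_eq_zero.1 h3).resolve_left ?_
    refine Nat.cast_ne_zero.2 ?_
    rw [Finset.card_univ, Fintype.card_fun]
    simp
  apply hT.inj
  rw [map_zero]
  funext M
  exact key M

end Pool.Agent.BSE.H69
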