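import Pool.Agent.BSE.Stmts4

/-!
# Module CJ: the smallest eigenvalue of the conjugate representation
-/

open MeasureTheory Matrix Finset
open scoped ComplexConjugate

namespace Pool.Agent.BSE.H69J

open Pool.Agent.Helper64_FR Pool.Agent.BSE

theorem eig_conj {m : ℕ} (M M' : Matrix (Fin m) (Fin m) ℂ) (h : ∀ a b, M' a b = conj (M a b))
    (x : ℝ) (v : Fin m → ℂ) (hv : v ≠ 0) (he : M *ᵥ v = (x : ℂ) • v) :
    ∃ v' : Fin m → ℂ, v' ≠ 0 ∧ M' *ᵥ v' = (x : ℂ) • v' := by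
  refine ⟨fun i => conj (v i), fun h0 => hv ?_, ?_⟩
  · funext i
    have h1 := congrFun h0 i
    exact (map_eq_zero _).1 h1
  · funext i
    have h1 := congrArg (starRingEnd ℂ) (congrFun he i)
    rw [Matrix.mulVec, dotProduct, map_sum, Pi.smul_apply, smul_eq_mul, map_mul,
      Complex.conj_ofReal] at h1
    rw [Matrix.mulVec, dotProduct, Pi.smul_apply, smul_eq_mul, ← h1]
    refine Finset.sum_congr rfl fun j _ => ?_
    rw [h, map_mul]

theorem avg_cj {n : ℕ} (ρ : URep n) (B : Finset (Fin n)) (a b : Fin ρ.dim) :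
    (cj ρ).avg B a b = conj (ρ.avg B a b) := by
  show ∫ A : UB B, conj (ρ.mat (A : UU n) a b) ∂(haarB B) =
    conj (∫ A : UB B, ρ.mat (A : UU n) a b ∂(haarB B))
  exact integral_conj

theorem lap_cj {n : ℕ} (ρ : URep n) (w : Finset (Fin n) → ℝ) (a b : Fin ρ.dim) :
    (cj ρ).lap w a b = conj (ρ.lap w a b) := by
  have h1 : ∀ σ : URep n, ∀ a b, σ.lap w a b = ∑ B : Finset (Fin n),
      (w B : ℂ) * ((1 : Matrix (Fin σ.dim) (Fin σ.dim) ℂ) a b - σ.avg B a b) := by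
    intro σ a b
    unfold URep.lap
    rw [Matrix.sum_apply]
    rfl
  rw [h1 ρ, map_sum]
  refine (h1 (cj ρ) a b).trans (Finset.sum_congr rfl fun B _ => ?_)
  rw [map_mul, Complex.conj_ofReal, map_sub, ← avg_cj]
  congr 2
  show (1 : Matrix (Fin ρ.dim) (Fin ρ.dim) ℂ) a b = _
  rw [Matrix.one_apply]
  split_ifs <;> simp

theorem cj : CJStmt := by
  intro n ρ w
  unfold URep.lamMin
  congr 1
  ext x
  constructor
  · rintro ⟨v, hv, he⟩
    exact eig_conj (m := ρ.dim) ((Pool.Agent.BSE.cj ρ).lap w) (ρ.lap w)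
      (fun a b => by rw [lap_cj, Complex.conj_conj]) x v hv he
  · rintro ⟨v, hv, he⟩
    exact eig_conj (m := ρ.dim) (ρ.lap w) ((Pool.Agent.BSE.cj ρ).lap w)
      (fun a b => lap_cj ρ w a b) x v hv he

end Pool.Agent.BSE.H69J
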