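import Pool.Agent.BSE.Stmts4
import Pool.Agent.Helper69_BSE.Eig

/-!
# Module EG2: eigenfunctions on tuples
-/

open MeasureTheory Matrix Finset
open scoped ComplexConjugate

namespace Pool.Agent.BSE.H69E2

open Pool.Agent.Helper64_FR Pool.Agent.BSE Pool.Agent.BSE.H69

theorem eg2 (sr2 : SR2Stmt) (sp2 : SP2Stmt) : EG2Stmt := by
  intro n k ρ T hT w x v hv c
  have hav : ∀ B : Finset (Fin n), T (ρ.avg B *ᵥ v) (fun s => dg (c s))
      = ∫ A : UB B, T v (fun s => dg (TB B (A : UU n) (c s))) ∂(haarB B) := by
    intro B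
    obtain ⟨N, a, u, v', h0, hs⟩ := sp2 n k (T v) (hT.mem v)
    have h1 := func_avg ρ B ((LinearMap.proj (fun s => dg (c s))).comp T) v
    simp only [LinearMap.comp_apply, LinearMap.proj_apply] at h1
    rw [h1]
    simp only [hT.equiv, hs]
    rw [integral_finset_sum, integral_finset_sum]
    · refine Finset.sum_congr rfl fun t _ => ?_
      rw [integral_const_mul, integral_const_mul, sr2]
    · intro t _
      refine (integrable_cont B ?_).const_mul _
      refine continuous_finset_prod _ fun s _ => ?_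
      exact (cont_bil _ _).comp (cont_dg.comp (cont_TB B (c s)))
    · intro t _
      refine (integrable_cont B ?_).const_mul _
      refine continuous_finset_prod _ fun s _ => ?_
      exact (cont_bil _ _).comp (((cont_inv B).mul continuous_const).mul (cont_val B))
  have hl : ρ.lap w *ᵥ v = ∑ B : Finset (Fin n), (w B : ℂ) • (v - ρ.avg B *ᵥ v) := by
    unfold URep.lap
    rw [Matrix.sum_mulVec]
    refine Finset.sum_congr rfl fun B _ => ?_
    rw [Matrix.smul_mulVec, Matrix.sub_mulVec, Matrix.one_mulVec]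
  have h2 : T (ρ.lap w *ᵥ v) (fun s => dg (c s)) = T ((x : ℂ) • v) (fun s => dg (c s)) := by
    rw [hv]
  rw [hl, map_sum, map_smul, Pi.smul_apply, smul_eq_mul, Finset.sum_apply] at h2
  rw [← h2]
  refine Finset.sum_congr rfl fun B _ => ?_
  rw [map_smul, Pi.smul_apply, smul_eq_mul, map_sub, Pi.sub_apply, hav]

end Pool.Agent.BSE.H69E2
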