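import Pool.Agent.BSE.Stmts4

/-!
# Module SP2: elements of `RowSpace` are finite sums
-/

open MeasureTheory Matrix Finset
open scoped ComplexConjugate

namespace Pool.Agent.BSE.H69S

open Pool.Agent.Helper64_FR Pool.Agent.BSE

theorem sp2 : SP2Stmt := by
  intro n k Φ hΦ
  induction hΦ using Submodule.span_induction with
  | mem Φ h =>
    obtain ⟨u, v, h0, rfl⟩ := h
    refine ⟨1, fun _ => 1, fun _ => u, fun _ => v, fun _ s => h0 s, fun M => ?_⟩
    rw [Fin.sum_univ_one, one_mul]
    rfl
  | zero =>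
    exact ⟨0, fun _ => 0, fun _ _ => 0, fun _ _ _ => 0, fun t => t.elim0, fun M => by simp⟩
  | add Φ Ψ _ _ h1 h2 =>
    obtain ⟨N, a, u, v, h0, hs⟩ := h1
    obtain ⟨N', a', u', v', h0', hs'⟩ := h2
    refine ⟨N + N', Fin.append a a', Fin.append u u', Fin.append v v', fun t => ?_, fun M => ?_⟩
    · refine Fin.addCases (fun i => ?_) (fun i => ?_) t
      · rw [Fin.append_left, Fin.append_left]
        exact h0 i
      · rw [Fin.append_right, Fin.append_right]
        exact h0' i
    · rw [Pi.add_apply, hs, hs', Fin.sum_univ_add]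
      simp only [Fin.append_left, Fin.append_right]
  | smul b Φ _ h1 =>
    obtain ⟨N, a, u, v, h0, hs⟩ := h1
    refine ⟨N, fun t => b * a t, u, v, h0, fun M => ?_⟩
    rw [Pi.smul_apply, smul_eq_mul, hs, Finset.mul_sum]
    exact Finset.sum_congr rfl fun t _ => by ring

end Pool.Agent.BSE.H69S
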